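import Pool.Agent.H52.TM.Br

/-!
Project TM (helper19), module MI: the moments in an interval, from the moments over a full period.
-/

set_option autoImplicit false

namespace Pool.Agent.H52.TM

open Finset
open Pool.Agent.Y862.GM Pool.Agent.H19.TM

/-- expansion of a moment -/
lemma moment_expand (Om H : Finset ℕ) (f : ℕ → ℕ → ℝ) (c : ℝ) (K : ℕ) :
    ∑ x ∈ Om, (∑ h ∈ H, f x h - c) ^ K =
      ∑ i ∈ range (K + 1), ∑ g ∈ Fintype.piFinset (fun _ : Fin i => H),
        ((-c) ^ (K - i) * (K.choose i : ℝ)) * ∑ x ∈ Om, ∏ l, f x (g l) := by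
  have h1 : ∀ x, (∑ h ∈ H, f x h - c) ^ K = ∑ i ∈ range (K + 1),
      ∑ g ∈ Fintype.piFinset (fun _ : Fin i => H),
        ((-c) ^ (K - i) * (K.choose i : ℝ)) * ∏ l, f x (g l) := by
    intro x
    rw [sub_eq_add_neg, add_pow]
    refine Finset.sum_congr rfl fun i _ => ?_
    rw [Pool.Agent.Y340.GM.pow_expand, Finset.sum_mul, Finset.sum_mul]
    refine Finset.sum_congr rfl fun g _ => ?_
    ring
  simp_rw [h1]
  rw [Finset.sum_comm]
  refine Finset.sum_congr rfl fun i _ => ?_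
  rw [Finset.sum_comm]
  refine Finset.sum_congr rfl fun g _ => ?_
  rw [Finset.mul_sum]

/-- comparison of the moments of two means -/
lemma moment_cmp (O1 O2 H : Finset ℕ) (w1 w2 : ℝ) (f : ℕ → ℕ → ℝ) (c η : ℝ) (K : ℕ)
    (h : ∀ i ≤ K, ∀ g : Fin i → ℕ,
      |(∑ x ∈ O1, ∏ l, f x (g l)) / w1 - (∑ x ∈ O2, ∏ l, f x (g l)) / w2| ≤ η) :
    |(∑ x ∈ O1, (∑ h ∈ H, f x h - c) ^ K) / w1 - (∑ x ∈ O2, (∑ h ∈ H, f x h - c) ^ K) / w2| ≤
      ((H.card : ℝ) + |c|) ^ K * η := by
  rw [moment_expand O1, moment_expand O2, Finset.sum_div, Finset.sum_div, ← Finset.sum_sub_distrib]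
  have e : ∀ i ∈ range (K + 1),
      (∑ g ∈ Fintype.piFinset (fun _ : Fin i => H),
        ((-c) ^ (K - i) * (K.choose i : ℝ)) * ∑ x ∈ O1, ∏ l, f x (g l)) / w1 -
      (∑ g ∈ Fintype.piFinset (fun _ : Fin i => H),
        ((-c) ^ (K - i) * (K.choose i : ℝ)) * ∑ x ∈ O2, ∏ l, f x (g l)) / w2 =
      ∑ g ∈ Fintype.piFinset (fun _ : Fin i => H), ((-c) ^ (K - i) * (K.choose i : ℝ)) *
        ((∑ x ∈ O1, ∏ l, f x (g l)) / w1 - (∑ x ∈ O2, ∏ l, f x (g l)) / w2) := by
    intro i _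
    rw [Finset.sum_div, Finset.sum_div, ← Finset.sum_sub_distrib]
    refine Finset.sum_congr rfl fun g _ => ?_
    ring
  rw [Finset.sum_congr rfl e]
  refine (Finset.abs_sum_le_sum_abs _ _).trans ?_
  have e2 : ∀ i ∈ range (K + 1),
      |∑ g ∈ Fintype.piFinset (fun _ : Fin i => H), ((-c) ^ (K - i) * (K.choose i : ℝ)) *
        ((∑ x ∈ O1, ∏ l, f x (g l)) / w1 - (∑ x ∈ O2, ∏ l, f x (g l)) / w2)| ≤
      (H.card : ℝ) ^ i * |c| ^ (K - i) * (K.choose i : ℝ) * η := by
    intro i hi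
    have hi' : i ≤ K := Nat.lt_succ_iff.1 (mem_range.1 hi)
    refine (Finset.abs_sum_le_sum_abs _ _).trans ?_
    calc _ ≤ ∑ _g ∈ Fintype.piFinset (fun _ : Fin i => H), (|c| ^ (K - i) * (K.choose i : ℝ)) * η := by
          refine Finset.sum_le_sum fun g _ => ?_
          rw [abs_mul, abs_mul, abs_pow, abs_neg, Nat.abs_cast]
          exact mul_le_mul_of_nonneg_left (h i hi' g) (by positivity)
      _ = _ := by
          rw [Finset.sum_const, Fintype.card_piFinset]
          simp only [prod_const, card_univ, Fintype.card_fin, nsmul_eq_mul]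
          push_cast
          ring
  refine (Finset.sum_le_sum e2).trans ?_
  rw [← Finset.sum_mul, ← add_pow]

/-- correlations over an interval -/
lemma corr_int (K : ℕ) : ∃ A : ℕ, ∀ y r : ℕ, A ≤ y → r ≤ y → ∀ lam : ℝ,
    Real.log (Real.log y) ≤ lam → ∀ Z Y : ℕ, (y : ℝ) ^ (A * lam) ≤ Y → ∀ i ≤ K, ∀ g : Fin i → ℕ,
    |(∑ x ∈ Ioc Z (Z + Y), ∏ l, mu r (x + g l)) / Y -
      ∏ p ∈ pr r, ((∑ n ∈ range (p ^ 2), loc g p n) / (p : ℝ) ^ 2)| ≤ Real.exp (-lam) := by
  obtain ⟨A, hA⟩ := t_BR (2 * K)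
  refine ⟨A, ?_⟩
  intro y r hy hr lam hlam Z Y hY i hi g
  have hsub : pr r ⊆ pr y := by
    intro p hp
    rw [Pool.Agent.Y71.GM.mem_pr] at hp ⊢
    exact ⟨hp.1.trans hr, hp.2⟩
  have hL := fun (p : ℕ) (hp : p.Prime) => Pool.Agent.Y259.GM.t_LOC i g p hp
  have key := hA y hy lam hlam Z Y hY (fun p n => if p ∈ pr r then loc g p n - 1 else 0) ?_ ?_ ?_
  · have e1 : ∀ n, ∏ p ∈ pr y, (1 + (if p ∈ pr r then loc g p n - 1 else 0)) =
        ∏ l, mu r (n + g l) := by
      intro n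
      rw [Pool.Agent.Y71.GM.prod_mu, ← Finset.prod_subset hsub]
      · refine Finset.prod_congr rfl fun p hp => ?_
        rw [if_pos hp]
        ring
      · intro p _ hp
        rw [if_neg hp, add_zero]
    have e2 : ∏ p ∈ pr y, (1 + (∑ n ∈ range (p ^ 2), (if p ∈ pr r then loc g p n - 1 else 0)) /
        (p : ℝ) ^ 2) = ∏ p ∈ pr r, ((∑ n ∈ range (p ^ 2), loc g p n) / (p : ℝ) ^ 2) := by
      rw [← Finset.prod_subset hsub]
      · refine Finset.prod_congr rfl fun p hp => ?_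
        rw [← Pool.Agent.Y71.GM.fac g p (Pool.Agent.Y71.GM.mem_pr.1 hp).2]
        simp only [if_pos hp]
      · intro p _ hp
        simp only [if_neg hp, Finset.sum_const_zero, zero_div, add_zero]
    simp only [e1] at key
    rw [e2] at key
    exact key
  · intro p hp n
    have hp' := (Pool.Agent.Y71.GM.mem_pr.1 hp).2
    by_cases h : p ∈ pr r
    · simp only [if_pos h, (hL p hp').1 n]
    · simp only [if_neg h]
  · intro p hp n
    have hp' := (Pool.Agent.Y71.GM.mem_pr.1 hp).2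
    by_cases h : p ∈ pr r
    · simp only [if_pos h]
      have := (hL p hp').2.1 n
      rwa [add_sub_cancel]
    · simp only [if_neg h]
      norm_num
  · intro p hp
    have hp' := (Pool.Agent.Y71.GM.mem_pr.1 hp).2
    have hp0 : (0 : ℝ) ≤ p := Nat.cast_nonneg _
    by_cases h : p ∈ pr r
    · simp only [if_pos h]
      refine ((hL p hp').2.2.1).trans ?_
      have : (i : ℝ) ≤ K := by exact_mod_cast hi
      gcongr
    · simp only [if_neg h, abs_zero, Finset.sum_const_zero]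
      positivity

/-- correlations over a full period -/
lemma corr_full (r i : ℕ) (g : Fin i → ℕ) :
    (∑ x ∈ range (∏ p ∈ pr r, p ^ 2), ∏ l, mu r (x + g l)) / (∏ p ∈ pr r, (p : ℝ) ^ 2) =
      ∏ p ∈ pr r, ((∑ n ∈ range (p ^ 2), loc g p n) / (p : ℝ) ^ 2) := by
  have hP : ∀ p ∈ pr r, p.Prime := fun p hp => (Pool.Agent.Y71.GM.mem_pr.1 hp).2
  have h1 := Pool.Agent.Y672.GM.sum_prod (pr r) hP (fun p n => loc g p n)
    (fun p hp => (Pool.Agent.Y259.GM.t_LOC i g p (hP p hp)).1)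
  rw [Finset.prod_div_distrib, ← h1]
  congr 1
  refine Finset.sum_congr rfl fun x _ => ?_
  rw [Pool.Agent.Y71.GM.prod_mu]

lemma mu_periodic (r : ℕ) : Function.Periodic (mu r) (∏ p ∈ pr r, p ^ 2) :=
  Pool.Agent.Y672.GM.prod_periodic (pr r) (fun p n => muP p n)
    (fun p _ n => Pool.Agent.Y259.GM.muP_period p n)

lemma V_bounds (r : ℕ) : 0 ≤ V (pr r) ∧ V (pr r) ≤ 1 := by
  constructor
  · exact Finset.prod_nonneg fun p _ => sq_nonneg _
  · refine Finset.prod_le_one (fun p _ => sq_nonneg _) fun p hp => ?_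
    have hp' := (Pool.Agent.Y71.GM.mem_pr.1 hp).2
    have h1 : (1 : ℝ) ≤ p := by exact_mod_cast hp'.one_lt.le
    have h2 : 1 / (p : ℝ) ≤ 1 := by
      rw [div_le_one (by linarith)]
      exact h1
    have h3 : 0 ≤ 1 / (p : ℝ) := by positivity
    nlinarith

theorem t_MI (hMOM : S_MOM) : S_MI := by
  intro m
  obtain ⟨C0, hC0, hM⟩ := hMOM m
  obtain ⟨CM, hCM⟩ := mert
  obtain ⟨A, hA⟩ := corr_int (2 * m)
  obtain ⟨C, hC⟩ := exists_nat_ge (max (Real.exp (C0 * CM)) C0)
  refine ⟨C, A, ?_⟩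
  intro y r hy hr3 hry lam hlam Z Y hY a b hb
  have hP : ∀ p ∈ pr r, p.Prime := fun p hp => (Pool.Agent.Y71.GM.mem_pr.1 hp).2
  obtain ⟨Q, hQ⟩ : ∃ Q : ℕ, Q = ∏ p ∈ pr r, p ^ 2 := ⟨_, rfl⟩
  have hQ0 : 0 < Q := by
    rw [hQ]
    exact Finset.prod_pos fun p hp => pow_pos (hP p hp).pos 2
  have hQr : (Q : ℝ) = ∏ p ∈ pr r, (p : ℝ) ^ 2 := by
    rw [hQ]
    push_cast
    rfl
  have hQ0' : (0 : ℝ) < Q := by exact_mod_cast hQ0
  have h1 := moment_cmp (Ioc Z (Z + Y)) (range Q) (Ioc a (a + b)) (Y : ℝ) (Q : ℝ)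
    (fun x h => mu r (x + h)) (b * V (pr r)) (Real.exp (-lam)) (2 * m) ?_
  swap
  · intro i hi g
    have h2 := hA y r hy hry lam hlam Z Y hY i hi g
    rw [← corr_full r i g, ← hQr, ← hQ] at h2
    exact h2
  obtain ⟨hV0, hV1⟩ := V_bounds r
  have hb0 : (0 : ℝ) ≤ b := Nat.cast_nonneg _
  have hcard : ((Ioc a (a + b)).card : ℝ) = b := by
    rw [Nat.card_Ioc, add_tsub_cancel_left]
  have habs : |(b : ℝ) * V (pr r)| ≤ b := by
    rw [abs_of_nonneg (mul_nonneg hb0 hV0)]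
    nlinarith
  have h3 : (((Ioc a (a + b)).card : ℝ) + |(b : ℝ) * V (pr r)|) ^ (2 * m) * Real.exp (-lam) ≤
      (2 * b) ^ (2 * m) * Real.exp (-lam) := by
    rw [hcard]
    have : (b : ℝ) + |(b : ℝ) * V (pr r)| ≤ 2 * b := by linarith
    gcongr
  -- the moment over a full period
  have h4 : (∑ x ∈ range Q, (∑ h ∈ Ioc a (a + b), mu r (x + h) - b * V (pr r)) ^ (2 * m)) / Q ≤
      C * Real.log r ^ C * (b : ℝ) ^ m := by
    have e1 : ∀ x, ∑ h ∈ Ioc a (a + b), mu r (x + h) = ∑ j ∈ range b, mu r ((a + 1 + x) + j) := by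
      intro x
      have : Ioc a (a + b) = Ico (a + 1) (a + b + 1) := by
        ext t
        simp only [mem_Ioc, mem_Ico]
        omega
      rw [this, Finset.sum_Ico_eq_sum_range]
      have e3 : a + b + 1 - (a + 1) = b := by omega
      rw [e3]
      refine Finset.sum_congr rfl fun j _ => ?_
      congr 1
      ring
    have hper : Function.Periodic (fun x => (∑ j ∈ range b, mu r (x + j) - b * V (pr r)) ^ (2 * m)) Q := by
      intro x
      have : ∀ j, mu r (x + Q + j) = mu r (x + j) := by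
        intro j
        have h5 := mu_periodic r (x + j)
        rw [← hQ] at h5
        rw [← h5]
        congr 1
        ring
      simp only [this]
    have e2 : ∑ x ∈ range Q, (∑ h ∈ Ioc a (a + b), mu r (x + h) - b * V (pr r)) ^ (2 * m) =
        ∑ x ∈ range Q, (∑ j ∈ range b, mu r (x + j) - b * V (pr r)) ^ (2 * m) := by
      simp only [e1]
      exact Pool.Agent.Y672.GM.sum_shift Q _ hper (a + 1)
    rw [e2, div_le_iff₀ hQ0']
    have h5 := hM (pr r) hP b
    rw [← hQ, ← hQr] at h5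
    refine h5.trans ?_
    have hr3' : (3 : ℝ) ≤ r := by exact_mod_cast hr3
    have hlog1 : 1 ≤ Real.log r := by
      rw [← Real.log_exp 1]
      refine Real.log_le_log (Real.exp_pos _) ?_
      linarith [Real.exp_one_lt_d9]
    have hlog0 : 0 < Real.log r := by linarith
    have h6 : ∏ p ∈ pr r, (1 + C0 / (p : ℝ)) ≤ C * Real.log r ^ C := by
      calc ∏ p ∈ pr r, (1 + C0 / (p : ℝ)) ≤ ∏ p ∈ pr r, Real.exp (C0 * (1 / (p : ℝ))) := by
            refine Finset.prod_le_prod (fun p _ => by positivity) fun p _ => ?_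
            have := Real.add_one_le_exp (C0 * (1 / (p : ℝ)))
            have e : C0 / (p : ℝ) = C0 * (1 / (p : ℝ)) := by ring
            rw [e]
            linarith
        _ = Real.exp (C0 * ∑ p ∈ pr r, (1 : ℝ) / p) := by
            rw [← Real.exp_sum, ← Finset.mul_sum]
        _ ≤ Real.exp (C0 * (Real.log (Real.log r) + CM)) := by
            have h7 := (abs_le.1 (hCM r hr3)).2
            apply Real.exp_le_exp.2
            refine mul_le_mul_of_nonneg_left ?_ hC0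
            linarith
        _ = Real.exp (C0 * CM) * Real.log r ^ C0 := by
            rw [Real.rpow_def_of_pos hlog0, ← Real.exp_add]
            ring_nf
        _ ≤ C * Real.log r ^ C := by
            have h8 : Real.log r ^ C0 ≤ Real.log r ^ C := by
              rw [← Real.rpow_natCast]
              exact Real.rpow_le_rpow_of_exponent_le hlog1 ((le_max_right _ _).trans hC)
            exact mul_le_mul ((le_max_left _ _).trans hC) h8 (by positivity) (Nat.cast_nonneg _)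
    calc (Q : ℝ) * (∏ p ∈ pr r, (1 + C0 / (p : ℝ))) * (b : ℝ) ^ m ≤
          (Q : ℝ) * (C * Real.log r ^ C) * (b : ℝ) ^ m := by gcongr
      _ = _ := by ring
  have h9 := (abs_le.1 h1).2
  linarith

end Pool.Agent.H52.TM
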