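import Pool.Agent.H19.TM.Stm
import Pool.Graph.R_pool_sql_team_seeded_1acbe0a2.Y756.GM.Brun
import Pool.Graph.R_pool_sql_team_seeded_1acbe0a2.Y862.GM.All

/-!
Project TM (helper19), module BR: a fundamental lemma of Brun type with an exponentially small error.
Adapted from the library module `Y756.GM.Brun`.
-/

set_option autoImplicit false

namespace Pool.Agent.H52.TM

open Finset
open Pool.Agent.Y862.GM Pool.Agent.Y756.GM Pool.Agent.H19.TM

theorem br_of (hM : S_MERT) (h1 : S_TRUNC) (h2 : S_EQUI) : S_BR := by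
  classical
  intro κ
  obtain ⟨C, hC⟩ := hM
  obtain ⟨K, hK1, hKκ⟩ : ∃ K : ℝ, 1 ≤ K ∧ κ ≤ K := ⟨max κ 1, le_max_right _ _, le_max_left _ _⟩
  obtain ⟨c, hc⟩ : ∃ c : ℝ, c = 6 * K + 4 := ⟨_, rfl⟩
  have hc9 : 9 ≤ c := by rw [hc]; linarith
  -- the size of y
  obtain ⟨A, hA1, hA2⟩ : ∃ A : ℕ, 6 * c + 9 ≤ A ∧
      Real.exp (Real.exp (max 1 C)) ≤ A := by
    obtain ⟨A1, h⟩ := exists_nat_ge (6 * c + 9)
    obtain ⟨A2, h'⟩ := exists_nat_ge (Real.exp (Real.exp (max 1 C)))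
    refine ⟨A1 + A2, ?_, ?_⟩
    · push_cast
      have : (0 : ℝ) ≤ A2 := Nat.cast_nonneg _
      linarith
    · push_cast
      have : (0 : ℝ) ≤ A1 := Nat.cast_nonneg _
      linarith
  refine ⟨A, ?_⟩
  intro y hy lam hlam Z Y hY a ha1 ha2 ha3
  have hyA : (A : ℝ) ≤ y := by exact_mod_cast hy
  have hee : Real.exp (Real.exp (max 1 C)) ≤ y := hA2.trans hyA
  have hy0 : (0 : ℝ) < y := (Real.exp_pos _).trans_le hee
  have hlog : Real.exp (max 1 C) ≤ Real.log y := by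
    rw [← Real.log_exp (Real.exp (max 1 C))]
    exact Real.log_le_log (Real.exp_pos _) hee
  have hlogpos : 0 < Real.log y := (Real.exp_pos _).trans_le hlog
  obtain ⟨l, hl⟩ : ∃ l : ℝ, l = Real.log (Real.log y) := ⟨_, rfl⟩
  have hlmax : max 1 C ≤ l := by
    rw [hl, ← Real.log_exp (max 1 C)]
    exact Real.log_le_log (Real.exp_pos _) hlog
  have hl1 : 1 ≤ l := (le_max_left _ _).trans hlmax
  have hlC : C ≤ l := (le_max_right _ _).trans hlmax
  have hexpl : Real.exp l = Real.log y := by rw [hl, Real.exp_log hlogpos]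
  have hlog2 : 2 ≤ Real.log y := by
    have := Real.add_one_le_exp (max 1 C)
    have := le_max_left 1 C
    linarith
  have hy3 : (3 : ℝ) ≤ y := by
    have := Real.add_one_le_exp (Real.exp (max 1 C))
    have := Real.add_one_le_exp (max 1 C)
    have := le_max_left 1 C
    linarith
  have hy3' : 3 ≤ y := by exact_mod_cast hy3
  rw [← hl] at hlam
  have hlam1 : 1 ≤ lam := hl1.trans hlam
  have hYpos : (0 : ℝ) < Y := (Real.rpow_pos_of_pos hy0 _).trans_le hY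
  set P : Finset ℕ := pr y with hP
  have hPp : ∀ p ∈ P, p.Prime := by
    intro p hp
    rw [hP, pr, mem_filter] at hp
    exact hp.2
  have hPy : ∀ p ∈ P, p ≤ y := by
    intro p hp
    rw [hP, pr, mem_filter, mem_range] at hp
    omega
  have hPcard : P.card ≤ y + 1 := by
    rw [hP, pr]
    exact (card_filter_le _ _).trans (by rw [card_range])
  obtain ⟨N, hN⟩ : ∃ N : ℕ, N = ⌈c * lam⌉₊ := ⟨_, rfl⟩
  have hNge : c * lam ≤ N := by rw [hN]; exact Nat.le_ceil _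
  have hNle : (N : ℝ) ≤ c * lam + 1 := by
    rw [hN]
    exact (Nat.ceil_lt_add_one (by positivity)).le
  have hN1 : 1 ≤ N := by
    have : (1 : ℝ) ≤ N := by nlinarith
    exact_mod_cast this
  -- the local averages
  obtain ⟨D, hD⟩ : ∃ D : ℕ → ℝ, D = fun p => (∑ n ∈ range (p ^ 2), a p n) / (p : ℝ) ^ 2 :=
    ⟨_, rfl⟩
  obtain ⟨E, hE⟩ : ∃ E : ℕ → ℝ, E = fun p => (∑ n ∈ range (p ^ 2), |a p n|) / (p : ℝ) ^ 2 :=
    ⟨_, rfl⟩
  have hp0 : ∀ p ∈ P, (0 : ℝ) < p := fun p hp => by exact_mod_cast (hPp p hp).pos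
  have hE0 : ∀ p ∈ P, 0 ≤ E p := by
    intro p hp
    rw [hE]
    exact div_nonneg (sum_nonneg fun _ _ => abs_nonneg _) (by positivity)
  have hDE : ∀ p ∈ P, |D p| ≤ E p := by
    intro p hp
    have := hp0 p hp
    simp only [hD, hE]
    rw [abs_div, abs_of_pos (by positivity : (0 : ℝ) < (p : ℝ) ^ 2)]
    gcongr
    exact abs_sum_le_sum_abs _ _
  have hEκ : ∀ p ∈ P, E p ≤ K * (1 / p) := by
    intro p hp
    have h3 := hp0 p hp
    simp only [hE]
    rw [div_le_iff₀ (by positivity)]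
    have h4 := ha3 p hp
    calc _ ≤ κ * p := h4
      _ ≤ K * p := by gcongr
      _ = K * (1 / p) * (p : ℝ) ^ 2 := by field_simp
  have hD1 : ∀ p ∈ P, |1 + D p| ≤ 1 := by
    intro p hp
    have h3 := hp0 p hp
    have h4 : 1 + D p = (∑ n ∈ range (p ^ 2), (1 + a p n)) / (p : ℝ) ^ 2 := by
      rw [sum_add_distrib, sum_const, card_range, nsmul_eq_mul, mul_one]
      simp only [hD]
      push_cast
      field_simp
    rw [h4, abs_div, abs_of_pos (by positivity : (0 : ℝ) < (p : ℝ) ^ 2), div_le_one (by positivity)]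
    refine (abs_sum_le_sum_abs _ _).trans ?_
    calc _ ≤ ∑ n ∈ range (p ^ 2), (1 : ℝ) := sum_le_sum fun n _ => ha2 p hp n
      _ = (p : ℝ) ^ 2 := by simp
  have ha4 : ∀ p ∈ P, ∀ n, |a p n| ≤ 2 := by
    intro p hp n
    have h3 := ha2 p hp n
    rw [abs_le] at h3 ⊢
    constructor <;> linarith [h3.1, h3.2]
  -- the tails
  obtain ⟨RE, hRE⟩ : ∃ RE : ℝ, RE = ∑ S ∈ powersetCard N P, ∏ p ∈ S, E p := ⟨_, rfl⟩
  have hREle : RE ≤ Real.exp (-lam) / 8 := by
    have h3 := esym_le P E hE0 N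
    rw [← hRE] at h3
    have h4 : ∑ p ∈ P, E p ≤ K * (2 * lam) := by
      calc ∑ p ∈ P, E p ≤ ∑ p ∈ P, K * (1 / (p : ℝ)) := sum_le_sum hEκ
        _ = K * ∑ p ∈ P, (1 : ℝ) / p := by rw [mul_sum]
        _ ≤ K * (2 * lam) := by
            have h5 := hC y hy3'
            rw [abs_le, ← hl] at h5
            have : ∑ p ∈ P, (1 : ℝ) / p ≤ 2 * lam := by linarith [h5.2]
            gcongr
    have h5 : 3 * ∑ p ∈ P, E p - N ≤ -lam - 3 := by
      have : c * lam = 6 * K * lam + 4 * lam := by rw [hc]; ring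
      nlinarith
    refine h3.trans ((Real.exp_le_exp.2 h5).trans ?_)
    have h6 : Real.exp (-lam - 3) = Real.exp (-lam) * Real.exp (-3) := by
      rw [← Real.exp_add]
      ring_nf
    have h7 : Real.exp (-3) ≤ 1 / 8 := by
      rw [Real.exp_neg, one_div]
      apply inv_anti₀ (by norm_num)
      have h8 : Real.exp 3 = Real.exp 1 ^ 3 := by
        rw [← Real.exp_nat_mul]
        norm_num
      have h9 : (2 : ℝ) ≤ Real.exp 1 := by
        have := Real.add_one_le_exp (1 : ℝ)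
        linarith
      rw [h8]
      calc (8 : ℝ) = 2 ^ 3 := by norm_num
        _ ≤ Real.exp 1 ^ 3 := by gcongr
    rw [h6]
    have := mul_le_mul_of_nonneg_left h7 (Real.exp_pos (-lam)).le
    linarith
  have hRE0 : 0 ≤ RE := by
    rw [hRE]
    exact sum_nonneg fun S hS => prod_nonneg fun p hp => hE0 p ((mem_powersetCard.1 hS).1 hp)
  -- equidistribution
  obtain ⟨Er, hEr⟩ : ∃ Er : ℝ, Er = 2 * 2 ^ N * (y : ℝ) ^ (2 * N) := ⟨_, rfl⟩
  have hErr0 : 0 ≤ Er := by rw [hEr]; positivity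
  have hy1 : (1 : ℝ) ≤ y := by linarith
  have herr : ∀ S : Finset ℕ, S ⊆ P → S.card ≤ N →
      2 * 2 ^ S.card * ∏ p ∈ S, (p : ℝ) ^ 2 ≤ Er := by
    intro S hS hSN
    rw [hEr]
    have h3 : ∏ p ∈ S, (p : ℝ) ^ 2 ≤ (y : ℝ) ^ (2 * N) := by
      calc ∏ p ∈ S, (p : ℝ) ^ 2 ≤ ∏ p ∈ S, (y : ℝ) ^ 2 := by
            refine prod_le_prod (fun p _ => by positivity) fun p hp => ?_
            have : (p : ℝ) ≤ y := by exact_mod_cast hPy p (hS hp)
            gcongr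
        _ = (y : ℝ) ^ (2 * S.card) := by rw [prod_const, pow_mul]
        _ ≤ (y : ℝ) ^ (2 * N) := pow_le_pow_right₀ hy1 (by omega)
    have h4 : (2 : ℝ) ^ S.card ≤ 2 ^ N := pow_le_pow_right₀ (by norm_num) hSN
    gcongr
  have heq1 : ∀ S : Finset ℕ, S ⊆ P → S.card ≤ N →
      |∑ n ∈ Ioc Z (Z + Y), ∏ p ∈ S, a p n - Y * ∏ p ∈ S, D p| ≤ Er := by
    intro S hS hSN
    have h3 := h2 S (fun p hp => hPp p (hS hp)) a (fun p hp => ha1 p (hS hp))
      (fun p hp => ha4 p (hS hp)) Z Y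
    rw [hD]
    exact h3.trans (herr S hS hSN)
  have heq2 : ∀ S : Finset ℕ, S ⊆ P → S.card ≤ N →
      ∑ n ∈ Ioc Z (Z + Y), ∏ p ∈ S, |a p n| ≤ Y * ∏ p ∈ S, E p + Er := by
    intro S hS hSN
    have h3 := h2 S (fun p hp => hPp p (hS hp)) (fun p n => |a p n|)
      (fun p hp n => by simp only [ha1 p (hS hp) n])
      (fun p hp n => by rw [abs_abs]; exact ha4 p (hS hp) n) Z Y
    have h4 := (le_abs_self _).trans (h3.trans (herr S hS hSN))
    rw [hE]
    linarith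
  -- the number of subsets
  have hcnt : ∀ j ≤ N, ((powersetCard j P).card : ℝ) ≤ ((y : ℝ) + 1) ^ N := by
    intro j hj
    rw [card_powersetCard]
    have h3 : (P.card).choose j ≤ P.card ^ j := Nat.choose_le_pow _ _
    have h4 : P.card ^ j ≤ (y + 1) ^ j := Nat.pow_le_pow_left hPcard j
    have h5 : (y + 1) ^ j ≤ (y + 1) ^ N := Nat.pow_le_pow_right (by omega) hj
    exact_mod_cast h3.trans (h4.trans h5)
  -- comparison
  obtain ⟨T, hT⟩ : ∃ T : ℕ → ℝ, T = fun n => ∑ j ∈ range N, ∑ S ∈ powersetCard j P,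
    ∏ p ∈ S, a p n := ⟨_, rfl⟩
  obtain ⟨TM, hTM⟩ : ∃ TM : ℝ, TM = ∑ j ∈ range N, ∑ S ∈ powersetCard j P, ∏ p ∈ S, D p :=
    ⟨_, rfl⟩
  have hN' : N - 1 + 1 = N := by omega
  have hs1 : ∀ n, |∏ p ∈ P, (1 + a p n) - T n| ≤ ∑ S ∈ powersetCard N P, ∏ p ∈ S, |a p n| := by
    intro n
    have h3 := h1 P (fun p => a p n) (fun p hp => ha2 p hp n) (N - 1)
    rw [hN'] at h3
    rw [hT]
    exact h3
  have hs2 : |∏ p ∈ P, (1 + D p) - TM| ≤ RE := by
    have h3 := h1 P D hD1 (N - 1)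
    rw [hN'] at h3
    rw [hTM]
    refine h3.trans ?_
    rw [hRE]
    refine sum_le_sum fun S hS => ?_
    refine prod_le_prod (fun p _ => abs_nonneg _) fun p hp => ?_
    exact hDE p ((mem_powersetCard.1 hS).1 hp)
  have hs3 : |∑ n ∈ Ioc Z (Z + Y), T n - Y * TM| ≤ N * (((y : ℝ) + 1) ^ N * Er) := by
    rw [hT, hTM]
    have e1 : ∑ n ∈ Ioc Z (Z + Y), ∑ j ∈ range N, ∑ S ∈ powersetCard j P, ∏ p ∈ S, a p n -
        Y * ∑ j ∈ range N, ∑ S ∈ powersetCard j P, ∏ p ∈ S, D p =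
        ∑ j ∈ range N, ∑ S ∈ powersetCard j P,
          (∑ n ∈ Ioc Z (Z + Y), ∏ p ∈ S, a p n - Y * ∏ p ∈ S, D p) := by
      rw [sum_comm, mul_sum, ← sum_sub_distrib]
      refine sum_congr rfl fun j _ => ?_
      rw [sum_comm, mul_sum, ← sum_sub_distrib]
    rw [e1]
    refine (abs_sum_le_sum_abs _ _).trans ?_
    calc _ ≤ ∑ j ∈ range N, (((y : ℝ) + 1) ^ N * Er) := by
          refine sum_le_sum fun j hj => ?_
          rw [mem_range] at hj
          refine (abs_sum_le_sum_abs _ _).trans ?_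
          calc _ ≤ ∑ S ∈ powersetCard j P, Er := by
                refine sum_le_sum fun S hS => ?_
                rw [mem_powersetCard] at hS
                exact heq1 S hS.1 (by omega)
            _ = (powersetCard j P).card * Er := by rw [sum_const, nsmul_eq_mul]
            _ ≤ _ := mul_le_mul_of_nonneg_right (hcnt j hj.le) hErr0
      _ = _ := by rw [sum_const, card_range, nsmul_eq_mul]
  have hs4 : ∑ n ∈ Ioc Z (Z + Y), ∑ S ∈ powersetCard N P, ∏ p ∈ S, |a p n| ≤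
      Y * RE + ((y : ℝ) + 1) ^ N * Er := by
    rw [sum_comm]
    calc _ ≤ ∑ S ∈ powersetCard N P, (Y * ∏ p ∈ S, E p + Er) := by
          refine sum_le_sum fun S hS => ?_
          rw [mem_powersetCard] at hS
          exact heq2 S hS.1 hS.2.le
      _ = Y * RE + (powersetCard N P).card * Er := by
          rw [sum_add_distrib, ← mul_sum, ← hRE, sum_const, nsmul_eq_mul]
      _ ≤ _ := by
          have := mul_le_mul_of_nonneg_right (hcnt N le_rfl) hErr0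
          linarith
  have hmain : |∑ n ∈ Ioc Z (Z + Y), ∏ p ∈ P, (1 + a p n) - Y * ∏ p ∈ P, (1 + D p)| ≤
      2 * (Y * RE) + (N + 1) * (((y : ℝ) + 1) ^ N * Er) := by
    have e1 : ∑ n ∈ Ioc Z (Z + Y), ∏ p ∈ P, (1 + a p n) - Y * ∏ p ∈ P, (1 + D p) =
        ∑ n ∈ Ioc Z (Z + Y), (∏ p ∈ P, (1 + a p n) - T n) +
        (∑ n ∈ Ioc Z (Z + Y), T n - Y * TM) - Y * (∏ p ∈ P, (1 + D p) - TM) := by
      rw [sum_sub_distrib]
      ring
    rw [e1]
    have h3 : |∑ n ∈ Ioc Z (Z + Y), (∏ p ∈ P, (1 + a p n) - T n)| ≤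
        Y * RE + ((y : ℝ) + 1) ^ N * Er :=
      (abs_sum_le_sum_abs _ _).trans ((sum_le_sum fun n _ => hs1 n).trans hs4)
    have h4 : |(Y : ℝ) * (∏ p ∈ P, (1 + D p) - TM)| ≤ Y * RE := by
      rw [abs_mul, abs_of_pos hYpos]
      gcongr
    have h5 := abs_sub (∑ n ∈ Ioc Z (Z + Y), (∏ p ∈ P, (1 + a p n) - T n) +
        (∑ n ∈ Ioc Z (Z + Y), T n - Y * TM)) ((Y : ℝ) * (∏ p ∈ P, (1 + D p) - TM))
    have h6 := abs_add_le (∑ n ∈ Ioc Z (Z + Y), (∏ p ∈ P, (1 + a p n) - T n))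
        (∑ n ∈ Ioc Z (Z + Y), T n - Y * TM)
    linarith
  -- the error from equidistribution
  have hfin : (N + 1) * (((y : ℝ) + 1) ^ N * Er) ≤ Y * (Real.exp (-lam) / 2) := by
    have h3 : ((N : ℝ) + 1) ≤ (y : ℝ) ^ N := by
      have h4 : N + 1 ≤ 2 ^ N := Nat.lt_two_pow_self
      calc ((N : ℝ) + 1) ≤ 2 ^ N := by exact_mod_cast h4
        _ ≤ (y : ℝ) ^ N := by
            have : (2 : ℝ) ≤ y := by linarith
            gcongr
    have h4 : ((y : ℝ) + 1) ^ N ≤ (y : ℝ) ^ (2 * N) := by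
      rw [pow_mul]
      have : (y : ℝ) + 1 ≤ (y : ℝ) ^ 2 := by nlinarith
      gcongr
    have h5 : Er ≤ (y : ℝ) ^ (3 * N + 1) := by
      rw [hEr]
      have h2y : (2 : ℝ) ≤ y := by linarith
      calc 2 * 2 ^ N * (y : ℝ) ^ (2 * N) ≤ y * (y : ℝ) ^ N * (y : ℝ) ^ (2 * N) := by gcongr
        _ = (y : ℝ) ^ (3 * N + 1) := by ring
    have h6 : (N + 1) * (((y : ℝ) + 1) ^ N * Er) ≤ (y : ℝ) ^ (6 * N + 1) := by
      calc (N + 1) * (((y : ℝ) + 1) ^ N * Er) ≤
            (y : ℝ) ^ N * ((y : ℝ) ^ (2 * N) * (y : ℝ) ^ (3 * N + 1)) := by gcongr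
        _ = (y : ℝ) ^ (6 * N + 1) := by ring
    refine h6.trans ?_
    have h7 : (y : ℝ) ^ (6 * N + 1) ≤ (y : ℝ) ^ ((6 * c + 7) * lam) := by
      rw [← Real.rpow_natCast]
      apply Real.rpow_le_rpow_of_exponent_le hy1
      push_cast
      nlinarith
    refine h7.trans ?_
    have h8 : (y : ℝ) ^ ((6 * c + 7) * lam) * (y : ℝ) ^ (2 * lam) ≤ Y := by
      refine le_trans ?_ hY
      rw [← Real.rpow_add hy0]
      apply Real.rpow_le_rpow_of_exponent_le hy1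
      nlinarith
    have h9 : 2 * Real.exp lam ≤ (y : ℝ) ^ (2 * lam) := by
      have h10 : Real.exp lam ≤ (y : ℝ) ^ lam := by
        rw [Real.rpow_def_of_pos hy0]
        apply Real.exp_le_exp.2
        nlinarith
      have h11 : (2 : ℝ) ≤ (y : ℝ) ^ lam := by
        have := Real.add_one_le_exp lam
        linarith
      have h12 : (y : ℝ) ^ (2 * lam) = (y : ℝ) ^ lam * (y : ℝ) ^ lam := by
        rw [← Real.rpow_add hy0]
        ring_nf
      rw [h12]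
      exact mul_le_mul h11 h10 (Real.exp_pos _).le (by positivity)
    have h13 : (y : ℝ) ^ ((6 * c + 7) * lam) * (2 * Real.exp lam) ≤ Y :=
      (mul_le_mul_of_nonneg_left h9 (by positivity)).trans h8
    rw [Real.exp_neg]
    have h14 : (Y : ℝ) * ((Real.exp lam)⁻¹ / 2) = Y / (2 * Real.exp lam) := by
      field_simp
    rw [h14, le_div_iff₀ (by positivity)]
    exact h13
  -- the end
  have hdiv : (∑ n ∈ Ioc Z (Z + Y), ∏ p ∈ P, (1 + a p n)) / Y - ∏ p ∈ P, (1 + D p) =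
      (∑ n ∈ Ioc Z (Z + Y), ∏ p ∈ P, (1 + a p n) - Y * ∏ p ∈ P, (1 + D p)) / Y := by
    field_simp
  have hgoal : |(∑ n ∈ Ioc Z (Z + Y), ∏ p ∈ P, (1 + a p n)) / Y - ∏ p ∈ P, (1 + D p)| ≤
      Real.exp (-lam) := by
    rw [hdiv, abs_div, abs_of_pos hYpos, div_le_iff₀ hYpos]
    refine hmain.trans ?_
    have h3 : (Y : ℝ) * RE ≤ Y * (Real.exp (-lam) / 8) :=
      mul_le_mul_of_nonneg_left hREle hYpos.le
    have h4 : 0 < (Y : ℝ) * Real.exp (-lam) := mul_pos hYpos (Real.exp_pos _)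
    linarith
  rw [hD] at hgoal
  exact hgoal

theorem t_BR : S_BR := br_of mert Pool.Agent.Y210.GM.t_TRUNC Pool.Agent.Y672.GM.t_EQUI

end Pool.Agent.H52.TM
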