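import Pool.Agent.H19.TM.Stm
import Pool.Graph.R_pool_sql_team_seeded_1acbe0a2.Y340.GM.Sign

/-!
Project TM (helper19), module CMP: comparison of the moments with random signs of mean `d`.
-/

set_option autoImplicit false

namespace Pool.Agent.H52.TM.Cmp

open Finset
open Pool.Agent.Y862.GM Pool.Agent.H19.TM

/-- expansion of a moment -/
lemma mexp (H : Finset ℕ) (f : ℕ → ℝ) (c : ℝ) (K : ℕ) :
    (∑ h ∈ H, f h - c) ^ K =
      ∑ i ∈ range (K + 1), ∑ g ∈ Fintype.piFinset (fun _ : Fin i => H),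
        ((-c) ^ (K - i) * (K.choose i : ℝ)) * ∏ l, f (g l) := by
  rw [sub_eq_add_neg, add_pow]
  refine Finset.sum_congr rfl fun i _ => ?_
  rw [Pool.Agent.Y340.GM.pow_expand, Finset.sum_mul, Finset.sum_mul]
  refine Finset.sum_congr rfl fun g _ => ?_
  ring

theorem t_CMP (hR : S_RAD1) : S_CMP := by
  intro Om L j f₁ f₂ v d C c₀ η hv hη h
  have hC : 0 ≤ C := (abs_nonneg _).trans (hv 0)
  have e1 : ∑ x ∈ Om, (∑ h ∈ Ioc 0 L, v h * f₁ x h - c₀) ^ j =
      ∑ i ∈ range (j + 1), ∑ g ∈ Fintype.piFinset (fun _ : Fin i => Ioc 0 L),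
        ((-c₀) ^ (j - i) * (j.choose i : ℝ)) * ((∏ l, v (g l)) * ∑ x ∈ Om, ∏ l, f₁ x (g l)) := by
    simp_rw [mexp]
    rw [Finset.sum_comm]
    refine Finset.sum_congr rfl fun i _ => ?_
    rw [Finset.sum_comm]
    refine Finset.sum_congr rfl fun g _ => ?_
    rw [Finset.mul_sum, Finset.mul_sum]
    refine Finset.sum_congr rfl fun x _ => ?_
    rw [Finset.prod_mul_distrib]
  have e2 : ∑ x ∈ Om, ∑ U ∈ (Ioc 0 L).powerset,
      pw d L U * (∑ h ∈ Ioc 0 L, v h * sg U h * f₂ x h - c₀) ^ j =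
      ∑ i ∈ range (j + 1), ∑ g ∈ Fintype.piFinset (fun _ : Fin i => Ioc 0 L),
        ((-c₀) ^ (j - i) * (j.choose i : ℝ)) * ((∏ l, v (g l)) *
          (d ^ (odd g).card * ∑ x ∈ Om, ∏ l, f₂ x (g l))) := by
    have e3 : ∀ x, ∑ U ∈ (Ioc 0 L).powerset,
        pw d L U * (∑ h ∈ Ioc 0 L, v h * sg U h * f₂ x h - c₀) ^ j =
        ∑ i ∈ range (j + 1), ∑ g ∈ Fintype.piFinset (fun _ : Fin i => Ioc 0 L),
          ((-c₀) ^ (j - i) * (j.choose i : ℝ)) * ((∏ l, v (g l)) *
            (d ^ (odd g).card * ∏ l, f₂ x (g l))) := by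
      intro x
      have e4 : ∀ U ∈ (Ioc 0 L).powerset,
          pw d L U * (∑ h ∈ Ioc 0 L, v h * sg U h * f₂ x h - c₀) ^ j =
          ∑ i ∈ range (j + 1), ∑ g ∈ Fintype.piFinset (fun _ : Fin i => Ioc 0 L),
            ((-c₀) ^ (j - i) * (j.choose i : ℝ)) * ((∏ l, v (g l)) *
              ((pw d L U * ∏ l, sg U (g l)) * ∏ l, f₂ x (g l))) := by
        intro U _
        rw [mexp, Finset.mul_sum]
        refine Finset.sum_congr rfl fun i _ => ?_
        rw [Finset.mul_sum]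
        refine Finset.sum_congr rfl fun g _ => ?_
        rw [Finset.prod_mul_distrib, Finset.prod_mul_distrib]
        ring
      rw [Finset.sum_congr rfl e4, Finset.sum_comm]
      refine Finset.sum_congr rfl fun i _ => ?_
      rw [Finset.sum_comm]
      refine Finset.sum_congr rfl fun g hg => ?_
      rw [← Finset.mul_sum, ← Finset.mul_sum, ← Finset.sum_mul,
        hR d L i g (fun l => Fintype.mem_piFinset.1 hg l)]
    simp_rw [e3]
    rw [Finset.sum_comm]
    refine Finset.sum_congr rfl fun i _ => ?_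
    rw [Finset.sum_comm]
    refine Finset.sum_congr rfl fun g _ => ?_
    rw [← Finset.mul_sum, ← Finset.mul_sum, ← Finset.mul_sum]
  rw [e1, e2, ← Finset.sum_sub_distrib]
  refine (Finset.abs_sum_le_sum_abs _ _).trans ?_
  have key : ∀ i ∈ range (j + 1),
      |∑ g ∈ Fintype.piFinset (fun _ : Fin i => Ioc 0 L),
        ((-c₀) ^ (j - i) * (j.choose i : ℝ)) * ((∏ l, v (g l)) * ∑ x ∈ Om, ∏ l, f₁ x (g l)) -
      ∑ g ∈ Fintype.piFinset (fun _ : Fin i => Ioc 0 L),
        ((-c₀) ^ (j - i) * (j.choose i : ℝ)) * ((∏ l, v (g l)) *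
          (d ^ (odd g).card * ∑ x ∈ Om, ∏ l, f₂ x (g l)))| ≤
      (C * L) ^ i * |c₀| ^ (j - i) * (j.choose i : ℝ) * η := by
    intro i hi
    have hi' : i ≤ j := Nat.lt_succ_iff.1 (mem_range.1 hi)
    rw [← Finset.sum_sub_distrib]
    refine (Finset.abs_sum_le_sum_abs _ _).trans ?_
    calc _ ≤ ∑ _g ∈ Fintype.piFinset (fun _ : Fin i => Ioc 0 L),
            (|c₀| ^ (j - i) * (j.choose i : ℝ)) * (C ^ i * η) := by
          refine Finset.sum_le_sum fun g hg => ?_
          have hg' : ∀ l, g l ∈ Ioc 0 L := fun l => Fintype.mem_piFinset.1 hg l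
          have e5 : ((-c₀) ^ (j - i) * (j.choose i : ℝ)) *
              ((∏ l, v (g l)) * ∑ x ∈ Om, ∏ l, f₁ x (g l)) -
              ((-c₀) ^ (j - i) * (j.choose i : ℝ)) * ((∏ l, v (g l)) *
                (d ^ (odd g).card * ∑ x ∈ Om, ∏ l, f₂ x (g l))) =
              ((-c₀) ^ (j - i) * (j.choose i : ℝ)) * ((∏ l, v (g l)) *
                (∑ x ∈ Om, ∏ l, f₁ x (g l) - d ^ (odd g).card * ∑ x ∈ Om, ∏ l, f₂ x (g l))) := by
            ring
          rw [e5, abs_mul, abs_mul, abs_pow, abs_neg, Nat.abs_cast, abs_mul]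
          have h1 : |∏ l, v (g l)| ≤ C ^ i := by
            rw [Finset.abs_prod]
            calc ∏ l, |v (g l)| ≤ ∏ _l : Fin i, C :=
                  Finset.prod_le_prod (fun l _ => abs_nonneg _) (fun l _ => hv _)
              _ = C ^ i := by simp
          exact mul_le_mul_of_nonneg_left
            (mul_le_mul h1 (h i hi' g hg') (abs_nonneg _) (pow_nonneg hC _)) (by positivity)
      _ = _ := by
          rw [Finset.sum_const, Fintype.card_piFinset]
          simp only [Nat.card_Ioc, Nat.sub_zero, prod_const, card_univ, Fintype.card_fin,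
            nsmul_eq_mul]
          push_cast
          rw [mul_pow]
          ring
  refine (Finset.sum_le_sum key).trans ?_
  rw [← Finset.sum_mul, ← add_pow]

end Pool.Agent.H52.TM.Cmp
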