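import Pool.Agent.H19.TM.Stm

/-!
Project TM (helper19), modules RAD2, RAD3: sums of independent random signs of mean `d`.
-/

set_option autoImplicit false

namespace Pool.Agent.H52.TM.Rad

open Finset
open Pool.Agent.Y862.GM Pool.Agent.H19.TM

/-- the product formula -/
lemma pw_prod {R : Type*} [CommSemiring R] (s : Finset ℕ) (u v α β : ℕ → R) :
    ∑ U ∈ s.powerset, (∏ h ∈ s, (if h ∈ U then u h else v h)) *
      (∏ h ∈ s, (if h ∈ U then α h else β h)) = ∏ h ∈ s, (u h * α h + v h * β h) := by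
  rw [Finset.prod_add]
  refine Finset.sum_congr rfl fun U hU => ?_
  rw [mem_powerset] at hU
  rw [← Finset.prod_mul_distrib, ← Finset.prod_sdiff hU, mul_comm]
  congr 1
  · refine Finset.prod_congr rfl fun h hh => ?_
    rw [if_pos hh, if_pos hh]
  · refine Finset.prod_congr rfl fun h hh => ?_
    rw [mem_sdiff] at hh
    rw [if_neg hh.2, if_neg hh.2]

lemma pw_nonneg (d : ℝ) (L : ℕ) (U : Finset ℕ) (h0 : 0 ≤ d) (h1 : d ≤ 1) : 0 ≤ pw d L U := by
  refine Finset.prod_nonneg fun h _ => ?_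
  split_ifs <;> linarith

lemma exp_le (v : ℝ) : Real.exp v ≤ v + Real.exp (v ^ 2) := by
  rcases le_or_gt |v| 1 with h | h
  · have h1 := (abs_le.1 (Real.abs_exp_sub_one_sub_id_le h)).2
    have h2 := Real.add_one_le_exp (v ^ 2)
    linarith
  · rcases lt_abs.1 h with h | h
    · have h1 : Real.exp v ≤ Real.exp (v ^ 2) := Real.exp_le_exp.2 (by nlinarith)
      linarith
    · have h1 : Real.exp v ≤ 1 := by
        rw [Real.exp_le_one_iff]
        linarith
      have h2 := Real.add_one_le_exp (v ^ 2)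
      nlinarith

lemma factor_le (d a : ℝ) (h0 : 0 ≤ d) (h1 : d ≤ 1) :
    (1 + d) / 2 * Real.exp (a * (1 - d)) + (1 - d) / 2 * Real.exp (a * (-1 - d)) ≤
      Real.exp (4 * a ^ 2) := by
  have h2 := exp_le (a * (1 - d))
  have h3 := exp_le (a * (-1 - d))
  have h4 : Real.exp ((a * (1 - d)) ^ 2) ≤ Real.exp (4 * a ^ 2) := by
    apply Real.exp_le_exp.2
    have : (1 - d) ^ 2 ≤ 4 := by nlinarith
    nlinarith [sq_nonneg a, mul_le_mul_of_nonneg_left this (sq_nonneg a)]
  have h5 : Real.exp ((a * (-1 - d)) ^ 2) ≤ Real.exp (4 * a ^ 2) := by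
    apply Real.exp_le_exp.2
    have : (-1 - d) ^ 2 ≤ 4 := by nlinarith
    nlinarith [sq_nonneg a, mul_le_mul_of_nonneg_left this (sq_nonneg a)]
  have h6 := mul_le_mul_of_nonneg_left (h2.trans (add_le_add le_rfl h4))
    (by linarith : 0 ≤ (1 + d) / 2)
  have h7 := mul_le_mul_of_nonneg_left (h3.trans (add_le_add le_rfl h5))
    (by linarith : 0 ≤ (1 - d) / 2)
  nlinarith

lemma mgf (d : ℝ) (L : ℕ) (a : ℕ → ℝ) (h0 : 0 ≤ d) (h1 : d ≤ 1) :
    ∑ U ∈ (Ioc 0 L).powerset, pw d L U * Real.exp (∑ h ∈ Ioc 0 L, a h * (sg U h - d)) ≤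
      Real.exp (4 * ∑ h ∈ Ioc 0 L, a h ^ 2) := by
  have e1 : ∀ U ∈ (Ioc 0 L).powerset,
      pw d L U * Real.exp (∑ h ∈ Ioc 0 L, a h * (sg U h - d)) =
      (∏ h ∈ Ioc 0 L, (if h ∈ U then (1 + d) / 2 else (1 - d) / 2)) *
      (∏ h ∈ Ioc 0 L, (if h ∈ U then Real.exp (a h * (1 - d)) else Real.exp (a h * (-1 - d)))) := by
    intro U _
    rw [Real.exp_sum, pw]
    congr 1
    refine Finset.prod_congr rfl fun h _ => ?_
    unfold sg
    split_ifs <;> rfl
  rw [Finset.sum_congr rfl e1, pw_prod, Finset.mul_sum, Real.exp_sum]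
  refine Finset.prod_le_prod (fun h _ => ?_) fun h _ => factor_le d (a h) h0 h1
  have : 0 ≤ (1 - d) / 2 := by linarith
  positivity

theorem t_RAD2 : S_RAD2 := by
  intro d L m a h0 h1
  have key : ∀ x : ℝ, (8 * x) ^ (2 * m) ≤
      (2 * m).factorial * (Real.exp (8 * x) + Real.exp (-(8 * x))) := by
    intro x
    have e1 : (8 * x) ^ (2 * m) = |8 * x| ^ (2 * m) := by
      rw [pow_mul, pow_mul, sq_abs]
    have e2 := Real.pow_div_factorial_le_exp |8 * x| (abs_nonneg _) (2 * m)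
    rw [div_le_iff₀ (by positivity)] at e2
    rw [e1]
    refine e2.trans ?_
    rw [mul_comm]
    refine mul_le_mul_of_nonneg_left ?_ (by positivity)
    rcases abs_cases (8 * x) with ⟨h, _⟩ | ⟨h, _⟩ <;> rw [h]
    · linarith [Real.exp_pos (-(8 * x))]
    · linarith [Real.exp_pos (8 * x)]
  have h2 : (8 : ℝ) ^ (2 * m) * ∑ U ∈ (Ioc 0 L).powerset,
      pw d L U * (∑ h ∈ Ioc 0 L, a h * (sg U h - d)) ^ (2 * m) ≤
      (2 * m).factorial * (2 * Real.exp (256 * ∑ h ∈ Ioc 0 L, a h ^ 2)) := by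
    calc (8 : ℝ) ^ (2 * m) * ∑ U ∈ (Ioc 0 L).powerset,
          pw d L U * (∑ h ∈ Ioc 0 L, a h * (sg U h - d)) ^ (2 * m)
        = ∑ U ∈ (Ioc 0 L).powerset,
          pw d L U * (8 * ∑ h ∈ Ioc 0 L, a h * (sg U h - d)) ^ (2 * m) := by
          rw [Finset.mul_sum]
          refine Finset.sum_congr rfl fun U _ => ?_
          rw [mul_pow]
          ring
      _ ≤ ∑ U ∈ (Ioc 0 L).powerset, pw d L U * ((2 * m).factorial *
          (Real.exp (8 * ∑ h ∈ Ioc 0 L, a h * (sg U h - d)) +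
            Real.exp (-(8 * ∑ h ∈ Ioc 0 L, a h * (sg U h - d))))) :=
          Finset.sum_le_sum fun U _ =>
            mul_le_mul_of_nonneg_left (key _) (pw_nonneg d L U h0 h1)
      _ = (2 * m).factorial * (∑ U ∈ (Ioc 0 L).powerset,
          pw d L U * Real.exp (∑ h ∈ Ioc 0 L, (8 * a h) * (sg U h - d)) +
          ∑ U ∈ (Ioc 0 L).powerset,
          pw d L U * Real.exp (∑ h ∈ Ioc 0 L, (-(8 * a h)) * (sg U h - d))) := by
          rw [← Finset.sum_add_distrib, Finset.mul_sum]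
          refine Finset.sum_congr rfl fun U _ => ?_
          have e1 : ∑ h ∈ Ioc 0 L, (8 * a h) * (sg U h - d) =
              8 * ∑ h ∈ Ioc 0 L, a h * (sg U h - d) := by
            rw [Finset.mul_sum]
            exact Finset.sum_congr rfl fun h _ => by ring
          have e2 : ∑ h ∈ Ioc 0 L, (-(8 * a h)) * (sg U h - d) =
              -(8 * ∑ h ∈ Ioc 0 L, a h * (sg U h - d)) := by
            rw [Finset.mul_sum, ← Finset.sum_neg_distrib]
            exact Finset.sum_congr rfl fun h _ => by ring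
          rw [e1, e2]
          ring
      _ ≤ (2 * m).factorial * (Real.exp (256 * ∑ h ∈ Ioc 0 L, a h ^ 2) +
          Real.exp (256 * ∑ h ∈ Ioc 0 L, a h ^ 2)) := by
          have h3 := mgf d L (fun h => 8 * a h) h0 h1
          have h4 := mgf d L (fun h => -(8 * a h)) h0 h1
          have e3 : 4 * ∑ h ∈ Ioc 0 L, (8 * a h) ^ 2 = 256 * ∑ h ∈ Ioc 0 L, a h ^ 2 := by
            rw [Finset.mul_sum, Finset.mul_sum]
            exact Finset.sum_congr rfl fun h _ => by ring
          have e4 : 4 * ∑ h ∈ Ioc 0 L, (-(8 * a h)) ^ 2 = 256 * ∑ h ∈ Ioc 0 L, a h ^ 2 := by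
            rw [Finset.mul_sum, Finset.mul_sum]
            exact Finset.sum_congr rfl fun h _ => by ring
          rw [e3] at h3
          rw [e4] at h4
          exact mul_le_mul_of_nonneg_left (add_le_add h3 h4) (by positivity)
      _ = _ := by ring
  rw [le_div_iff₀ (by positivity), mul_comm]
  exact h2

theorem t_RAD3 : S_RAD3 := by
  intro d L a
  have e1 : ∀ U ∈ (Ioc 0 L).powerset, (pw d L U : ℂ) *
      Complex.exp (Complex.I * ((∑ h ∈ Ioc 0 L, a h * sg U h : ℝ) : ℂ)) =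
      (∏ h ∈ Ioc 0 L, (if h ∈ U then ((1 + d) / 2 : ℂ) else ((1 - d) / 2 : ℂ))) *
      (∏ h ∈ Ioc 0 L, (if h ∈ U then Complex.exp ((a h : ℂ) * Complex.I)
        else Complex.exp (-(a h : ℂ) * Complex.I))) := by
    intro U _
    congr 1
    · rw [pw]
      push_cast
      refine Finset.prod_congr rfl fun h _ => ?_
      split_ifs <;> push_cast <;> ring
    · push_cast
      rw [Finset.mul_sum, Complex.exp_sum]
      refine Finset.prod_congr rfl fun h _ => ?_
      unfold sg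
      split_ifs
      · congr 1
        push_cast
        ring
      · congr 1
        push_cast
        ring
  rw [Finset.sum_congr rfl e1, pw_prod]
  refine Finset.prod_congr rfl fun h _ => ?_
  rw [Complex.exp_mul_I, Complex.exp_mul_I, Complex.cos_neg, Complex.sin_neg]
  push_cast
  ring

end Pool.Agent.H52.TM.Rad
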