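import Pool.Agent.H52.TM.Rad

/-!
Project TM (helper19), module RAD1: the correlations of independent random signs of mean `d`.
-/

set_option autoImplicit false

namespace Pool.Agent.H52.TM.Rad

open Finset
open Pool.Agent.Y862.GM Pool.Agent.H19.TM

theorem t_RAD1 : S_RAD1 := by
  intro d L K g hg
  have e1 : ∀ U ∈ (Ioc 0 L).powerset, pw d L U * ∏ i, sg U (g i) =
      (∏ h ∈ Ioc 0 L, (if h ∈ U then (1 + d) / 2 else (1 - d) / 2)) *
      (∏ h ∈ Ioc 0 L, (if h ∈ U then (1 : ℝ) else
        (-1) ^ ((univ.filter (fun i => g i = h)).card))) := by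
    intro U _
    rw [pw]
    congr 1
    rw [← Finset.prod_fiberwise_of_maps_to (s := univ) (t := Ioc 0 L) (g := g)
      (fun i _ => hg i) (fun i => sg U (g i))]
    refine Finset.prod_congr rfl fun h _ => ?_
    have e2 : ∏ i ∈ univ.filter (fun i => g i = h), sg U (g i) =
        (sg U h) ^ ((univ.filter (fun i => g i = h)).card) := by
      rw [← Finset.prod_const]
      refine Finset.prod_congr rfl fun i hi => ?_
      rw [(mem_filter.1 hi).2]
    rw [e2]
    unfold sg
    split_ifs
    · rw [one_pow]
    · rfl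
  rw [Finset.sum_congr rfl e1, pw_prod]
  have e3 : ∀ h ∈ Ioc 0 L, (1 + d) / 2 * (1 : ℝ) + (1 - d) / 2 *
      (-1) ^ ((univ.filter (fun i => g i = h)).card) =
      if h ∈ odd g then d else 1 := by
    intro h _
    rcases Nat.even_or_odd ((univ.filter (fun i => g i = h)).card) with he | ho
    · have hn : h ∉ odd g := by
        intro hh
        exact (Nat.not_odd_iff_even.2 he) (mem_filter.1 hh).2
      rw [if_neg hn, he.neg_one_pow]
      ring
    · have hy : h ∈ odd g := by
        rw [odd, mem_filter]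
        refine ⟨?_, ho⟩
        obtain ⟨i, hi⟩ := Finset.card_pos.1 ho.pos
        rw [mem_image]
        exact ⟨i, mem_univ i, (mem_filter.1 hi).2⟩
      rw [if_pos hy, ho.neg_one_pow]
      ring
  rw [Finset.prod_congr rfl e3, Finset.prod_ite_mem, Finset.prod_const]
  congr 2
  refine Finset.inter_eq_right.2 ?_
  intro h hh
  obtain ⟨i, _, hi⟩ := mem_image.1 (mem_filter.1 hh).1
  rw [← hi]
  exact hg i

end Pool.Agent.H52.TM.Rad
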