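import Pool.Agent.H19.TM.Stm3

/-!
# Project TM3, module T4: the sum of `tau4 n / n`
-/

set_option autoImplicit false

namespace Pool.Agent.H52.TM

open Finset Pool.Agent.H19.TM

/-- the averaging operator -/
noncomputable def T (g : ℕ → ℝ) (N : ℕ) : ℝ := ∑ m ∈ Ioc 0 N, (1 / (m : ℝ)) * g (N / m)

/-- the asymptotic formula with main term `(log N) ^ (k + 1) / (k + 1)!` -/
def Q (k : ℕ) (g : ℕ → ℝ) : Prop := ∃ C : ℝ, 0 ≤ C ∧ ∀ N : ℕ, 1 ≤ N →
  |g N - Real.log N ^ (k + 1) / ((k + 1).factorial : ℝ)| ≤ C * (1 + Real.log N) ^ k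

theorem pow_diff_le (k : ℕ) {a b : ℝ} (hb : 0 ≤ b) (hab : b ≤ a) :
    a ^ (k + 1) - b ^ (k + 1) ≤ (k + 1) * a ^ k * (a - b) := by
  induction k with
  | zero => simp
  | succ n ih =>
    have h1 : b ^ (n + 1) ≤ a ^ (n + 1) := pow_le_pow_left₀ hb hab _
    have h2 : 0 ≤ a := hb.trans hab
    have h3 : a ^ (n + 2) - b ^ (n + 2) = a * (a ^ (n + 1) - b ^ (n + 1)) + (a - b) * b ^ (n + 1) := by ring
    push_cast
    rw [show n + 1 + 1 = n + 2 from rfl, h3]
    have h4 := mul_le_mul_of_nonneg_left ih h2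
    have h5 := mul_le_mul_of_nonneg_left h1 (sub_nonneg.mpr hab)
    have h6 : a * ((n + 1) * a ^ n * (a - b)) + (a - b) * a ^ (n + 1) = (n + 1 + 1) * a ^ (n + 1) * (a - b) := by
      ring
    linarith

theorem le_pow_diff (k : ℕ) {a b : ℝ} (hb : 0 ≤ b) (hab : b ≤ a) :
    (k + 1) * b ^ k * (a - b) ≤ a ^ (k + 1) - b ^ (k + 1) := by
  induction k with
  | zero => simp
  | succ n ih =>
    have h1 : b ^ (n + 1) ≤ a ^ (n + 1) := pow_le_pow_left₀ hb hab _
    have h2 : 0 ≤ a := hb.trans hab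
    have h3 : a ^ (n + 2) - b ^ (n + 2) = b * (a ^ (n + 1) - b ^ (n + 1)) + (a - b) * a ^ (n + 1) := by ring
    push_cast
    rw [show n + 1 + 1 = n + 2 from rfl, h3]
    have h4 := mul_le_mul_of_nonneg_left ih hb
    have h5 := mul_le_mul_of_nonneg_left h1 (sub_nonneg.mpr hab)
    have h6 : b * ((n + 1) * b ^ n * (a - b)) + (a - b) * b ^ (n + 1) = (n + 1 + 1) * b ^ (n + 1) * (a - b) := by
      ring
    linarith

theorem sum_Ioc_range (F : ℕ → ℝ) (N : ℕ) : ∑ m ∈ Ioc 0 N, F m = ∑ i ∈ range N, F (i + 1) := by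
  induction N with
  | zero => simp
  | succ n ih =>
    rw [sum_range_succ, ← ih]
    rw [show Ioc 0 (n + 1) = insert (n + 1) (Ioc 0 n) by ext; simp; omega, sum_insert (by simp), add_comm]

theorem harm_low (N : ℕ) : Real.log N ≤ ∑ m ∈ Ioc 0 N, (1 / (m : ℝ)) := by
  have h := log_add_one_le_harmonic N
  rcases Nat.eq_zero_or_pos N with h0 | h0
  · subst h0; simp
  have h1 : Real.log N ≤ Real.log (N + 1 : ℕ) :=
    Real.log_le_log (by exact_mod_cast h0) (by push_cast; linarith)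
  refine h1.trans (h.trans (le_of_eq ?_))
  rw [sum_Ioc_range, harmonic]
  push_cast
  exact sum_congr rfl fun i _ => by simp

theorem harm_up (N : ℕ) : ∑ m ∈ Ioc 0 N, (1 / (m : ℝ)) ≤ 1 + Real.log N := by
  have h := harmonic_le_one_add_log N
  refine (le_of_eq ?_).trans h
  rw [sum_Ioc_range, harmonic]
  push_cast
  exact sum_congr rfl fun i _ => by simp

theorem Q_zero : Q 0 (T fun _ => 1) := by
  refine ⟨1, zero_le_one, fun N _ => ?_⟩
  have h1 := harm_low N
  have h2 := harm_up N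
  simp only [T, mul_one, zero_add, pow_one, Nat.factorial_one, Nat.cast_one, div_one, pow_zero]
  rw [abs_le]
  constructor <;> linarith

/-- the main term -/
theorem main_term (k n : ℕ) :
    Real.log (n + 1 : ℕ) ^ (k + 2) / (k + 2) ≤
      ∑ m ∈ Ioc 0 (n + 1), (1 / (m : ℝ)) * (Real.log (n + 1 : ℕ) - Real.log m) ^ (k + 1) ∧
    ∑ m ∈ Ioc 0 (n + 1), (1 / (m : ℝ)) * (Real.log (n + 1 : ℕ) - Real.log m) ^ (k + 1) ≤
      Real.log (n + 1 : ℕ) ^ (k + 2) / (k + 2) + Real.log (n + 1 : ℕ) ^ (k + 1) := by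
  set L : ℕ → ℝ := fun i => Real.log (n + 1 : ℕ) - Real.log (i + 1 : ℕ) with hL
  have hL0 : L 0 = Real.log (n + 1 : ℕ) := by simp [hL]
  have hLn : L n = 0 := by simp [hL]
  rw [sum_Ioc_range]
  have hs : ∑ i ∈ range (n + 1), (1 / ((i + 1 : ℕ) : ℝ)) * (Real.log (n + 1 : ℕ) - Real.log (i + 1 : ℕ)) ^ (k + 1) =
      ∑ i ∈ range (n + 1), (1 / ((i + 1 : ℕ) : ℝ)) * L i ^ (k + 1) := rfl
  rw [hs]
  have hnn : ∀ i ∈ range n, 0 ≤ L (i + 1) := by
    intro i hi
    rw [mem_range] at hi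
    have : Real.log (i + 1 + 1 : ℕ) ≤ Real.log (n + 1 : ℕ) := by
      apply Real.log_le_log (by positivity)
      exact_mod_cast (by omega)
    simp only [hL]
    linarith
  have hd : ∀ i : ℕ, L i - L (i + 1) = Real.log (i + 1 + 1 : ℕ) - Real.log (i + 1 : ℕ) := by
    intro i
    simp only [hL]
    ring
  have hup : ∀ i : ℕ, L i - L (i + 1) ≤ 1 / ((i + 1 : ℕ) : ℝ) := by
    intro i
    rw [hd, ← Real.log_div (by positivity) (by positivity)]
    refine (Real.log_le_sub_one_of_pos (by positivity)).trans (le_of_eq ?_)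
    have : ((i + 1 : ℕ) : ℝ) ≠ 0 := by positivity
    field_simp
    push_cast
    ring
  have hlo : ∀ i : ℕ, 1 / ((i + 1 + 1 : ℕ) : ℝ) ≤ L i - L (i + 1) := by
    intro i
    rw [hd, ← Real.log_div (by positivity) (by positivity)]
    refine le_trans (le_of_eq ?_) (Real.one_sub_inv_le_log_of_pos (by positivity))
    have : ((i + 1 : ℕ) : ℝ) ≠ 0 := by positivity
    have : ((i + 1 + 1 : ℕ) : ℝ) ≠ 0 := by positivity
    field_simp
    push_cast
    ring
  have hle : ∀ i : ℕ, L (i + 1) ≤ L i := by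
    intro i
    have := hlo i
    have h2 : 0 ≤ 1 / ((i + 1 + 1 : ℕ) : ℝ) := by positivity
    linarith
  have htel : ∑ i ∈ range n, (L i ^ (k + 2) - L (i + 1) ^ (k + 2)) = L 0 ^ (k + 2) := by
    rw [sum_range_sub', hLn]
    simp
  have hk : (0 : ℝ) < (k : ℝ) + 2 := by positivity
  have hcast : ((k + 1 : ℕ) : ℝ) + 1 = (k : ℝ) + 2 := by push_cast; ring
  constructor
  · rw [div_le_iff₀ hk, ← hL0, ← htel, sum_range_succ, hLn]
    rw [zero_pow (by omega), mul_zero, add_zero, sum_mul]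
    refine sum_le_sum fun i hi => ?_
    have h1 := pow_diff_le (k + 1) (hnn i hi) (hle i)
    rw [hcast] at h1
    have h2 : 0 ≤ L i ^ (k + 1) := pow_nonneg ((hnn i hi).trans (hle i)) _
    calc L i ^ (k + 2) - L (i + 1) ^ (k + 2) ≤ ((k : ℝ) + 2) * L i ^ (k + 1) * (L i - L (i + 1)) := h1
      _ ≤ ((k : ℝ) + 2) * L i ^ (k + 1) * (1 / ((i + 1 : ℕ) : ℝ)) :=
        mul_le_mul_of_nonneg_left (hup i) (by positivity)
      _ = _ := by ring
  · rw [sum_range_succ', ← hL0]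
    have h0 : (1 / ((0 + 1 : ℕ) : ℝ)) * L 0 ^ (k + 1) = L 0 ^ (k + 1) := by simp
    rw [h0]
    refine add_le_add_left ?_ _
    rw [le_div_iff₀ hk, ← htel, sum_mul]
    refine sum_le_sum fun i hi => ?_
    have h1 := le_pow_diff (k + 1) (hnn i hi) (hle i)
    rw [hcast] at h1
    have h2 : 0 ≤ L (i + 1) ^ (k + 1) := pow_nonneg (hnn i hi) _
    calc 1 / ((i + 1 + 1 : ℕ) : ℝ) * L (i + 1) ^ (k + 1) * ((k : ℝ) + 2)
        = ((k : ℝ) + 2) * L (i + 1) ^ (k + 1) * (1 / ((i + 1 + 1 : ℕ) : ℝ)) := by ring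
      _ ≤ ((k : ℝ) + 2) * L (i + 1) ^ (k + 1) * (L i - L (i + 1)) :=
        mul_le_mul_of_nonneg_left (hlo i) (by positivity)
      _ ≤ _ := h1

theorem log_floor {N m : ℕ} (hm : 0 < m) (hmN : m ≤ N) :
    Real.log (N / m : ℕ) ≤ Real.log N - Real.log m ∧ Real.log N - Real.log m ≤ Real.log (N / m : ℕ) + 1 := by
  have hq : 0 < N / m := Nat.div_pos hmN hm
  have hm' : (0 : ℝ) < m := by exact_mod_cast hm
  have hN' : (0 : ℝ) < N := by exact_mod_cast (hm.trans_le hmN)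
  have hq' : (0 : ℝ) < (N / m : ℕ) := by exact_mod_cast hq
  rw [← Real.log_div hN'.ne' hm'.ne']
  constructor
  · exact Real.log_le_log hq' Nat.cast_div_le
  · have h1 : (N : ℝ) / m ≤ 2 * (N / m : ℕ) := by
      rw [div_le_iff₀ hm']
      have h2 : N < (N / m + 1) * m := by
        have e1 := Nat.div_add_mod N m
        have e2 := Nat.mod_lt N hm
        nlinarith
      have h3 : (N / m + 1) * m ≤ 2 * (N / m) * m := Nat.mul_le_mul_right _ (by omega)
      exact_mod_cast h2.le.trans h3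
    refine (Real.log_le_log (by positivity) h1).trans ?_
    rw [Real.log_mul (by norm_num) hq'.ne']
    have := Real.log_two_lt_d9
    linarith

theorem Q_step (k : ℕ) (g : ℕ → ℝ) (h : Q k g) : Q (k + 1) (T g) := by
  obtain ⟨C, hC, hg⟩ := h
  refine ⟨C + 2, by linarith, fun N hN => ?_⟩
  obtain ⟨n, rfl⟩ : ∃ n, N = n + 1 := ⟨N - 1, by omega⟩
  set N := n + 1 with hNn
  have hNpos : (0 : ℝ) < N := by positivity
  have hlog : 0 ≤ Real.log N := Real.log_natCast_nonneg N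
  have hF : (0 : ℝ) < ((k + 1).factorial : ℝ) := by positivity
  have hF1 : (1 : ℝ) ≤ ((k + 1).factorial : ℝ) := by exact_mod_cast Nat.succ_le_of_lt (Nat.factorial_pos _)
  have hF2 : ((k : ℝ) + 1) ≤ ((k + 1).factorial : ℝ) := by exact_mod_cast Nat.self_le_factorial (k + 1)
  obtain ⟨m1, m2⟩ := main_term k n
  rw [← hNn] at m1 m2
  -- pointwise bound
  have hpt : ∀ m ∈ Ioc 0 N, |g (N / m) - (Real.log N - Real.log m) ^ (k + 1) / ((k + 1).factorial : ℝ)| ≤
      (C + 1) * (1 + Real.log N) ^ k := by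
    intro m hm
    rw [mem_Ioc] at hm
    have hq : 0 < N / m := Nat.div_pos hm.2 hm.1
    have h1 := hg (N / m) hq
    obtain ⟨l1, l2⟩ := log_floor hm.1 hm.2
    have hb : 0 ≤ Real.log (N / m : ℕ) := Real.log_natCast_nonneg _
    have hmlog : 0 ≤ Real.log m := Real.log_natCast_nonneg m
    have h2 := pow_diff_le k hb l1
    have h3 : Real.log (N / m : ℕ) ^ (k + 1) ≤ (Real.log N - Real.log m) ^ (k + 1) := pow_le_pow_left₀ hb l1 _
    have h4 : (Real.log N - Real.log m) ^ k ≤ (1 + Real.log N) ^ k :=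
      pow_le_pow_left₀ (hb.trans l1) (by linarith) _
    have h5 : (1 + Real.log (N / m : ℕ)) ^ k ≤ (1 + Real.log N) ^ k :=
      pow_le_pow_left₀ (by linarith) (by linarith) _
    have h6 : 0 ≤ (Real.log N - Real.log m) ^ k := pow_nonneg (hb.trans l1) _
    have h7 : (Real.log N - Real.log m) ^ (k + 1) - Real.log (N / m : ℕ) ^ (k + 1) ≤
        (k + 1) * (1 + Real.log N) ^ k := by
      refine h2.trans ?_
      have : (k + 1) * (Real.log N - Real.log m) ^ k * (Real.log N - Real.log m - Real.log (N / m : ℕ)) ≤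
          (k + 1) * (Real.log N - Real.log m) ^ k * 1 :=
        mul_le_mul_of_nonneg_left (by linarith) (by positivity)
      refine this.trans ?_
      rw [mul_one]
      exact mul_le_mul_of_nonneg_left h4 (by positivity)
    have h8 : |Real.log (N / m : ℕ) ^ (k + 1) / ((k + 1).factorial : ℝ) -
        (Real.log N - Real.log m) ^ (k + 1) / ((k + 1).factorial : ℝ)| ≤ (1 + Real.log N) ^ k := by
      rw [← sub_div, abs_div, abs_of_pos hF, div_le_iff₀ hF, abs_sub_comm, abs_of_nonneg (by linarith)]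
      refine h7.trans ?_
      rw [mul_comm]
      exact mul_le_mul_of_nonneg_left hF2 (by positivity)
    have h9 : C * (1 + Real.log (N / m : ℕ)) ^ k ≤ C * (1 + Real.log N) ^ k := mul_le_mul_of_nonneg_left h5 hC
    have h10 := abs_sub_le (g (N / m)) (Real.log (N / m : ℕ) ^ (k + 1) / ((k + 1).factorial : ℝ))
      ((Real.log N - Real.log m) ^ (k + 1) / ((k + 1).factorial : ℝ))
    linarith
  -- the sum of the errors
  have hsum : |T g N - ∑ m ∈ Ioc 0 N, (1 / (m : ℝ)) *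
      ((Real.log N - Real.log m) ^ (k + 1) / ((k + 1).factorial : ℝ))| ≤ (C + 1) * (1 + Real.log N) ^ (k + 1) := by
    rw [T, ← sum_sub_distrib]
    refine (abs_sum_le_sum_abs _ _).trans ?_
    calc ∑ m ∈ Ioc 0 N, |(1 / (m : ℝ)) * g (N / m) - (1 / (m : ℝ)) *
          ((Real.log N - Real.log m) ^ (k + 1) / ((k + 1).factorial : ℝ))|
        ≤ ∑ m ∈ Ioc 0 N, (1 / (m : ℝ)) * ((C + 1) * (1 + Real.log N) ^ k) := by
          refine sum_le_sum fun m hm => ?_
          rw [← mul_sub, abs_mul, abs_of_nonneg (by positivity : (0 : ℝ) ≤ 1 / (m : ℝ))]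
          exact mul_le_mul_of_nonneg_left (hpt m hm) (by positivity)
      _ = (∑ m ∈ Ioc 0 N, (1 / (m : ℝ))) * ((C + 1) * (1 + Real.log N) ^ k) := by rw [sum_mul]
      _ ≤ (1 + Real.log N) * ((C + 1) * (1 + Real.log N) ^ k) :=
          mul_le_mul_of_nonneg_right (harm_up N) (by positivity)
      _ = _ := by ring
  have hmain : |∑ m ∈ Ioc 0 N, (1 / (m : ℝ)) * ((Real.log N - Real.log m) ^ (k + 1) / ((k + 1).factorial : ℝ)) -
      Real.log N ^ (k + 1 + 1) / ((k + 1 + 1).factorial : ℝ)| ≤ (1 + Real.log N) ^ (k + 1) := by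
    have e1 : ∑ m ∈ Ioc 0 N, (1 / (m : ℝ)) * ((Real.log N - Real.log m) ^ (k + 1) / ((k + 1).factorial : ℝ)) =
        (∑ m ∈ Ioc 0 N, (1 / (m : ℝ)) * (Real.log N - Real.log m) ^ (k + 1)) / ((k + 1).factorial : ℝ) := by
      rw [sum_div]
      exact sum_congr rfl fun _ _ => by ring
    have e2 : Real.log N ^ (k + 1 + 1) / ((k + 1 + 1).factorial : ℝ) =
        (Real.log N ^ (k + 2) / (k + 2)) / ((k + 1).factorial : ℝ) := by
      rw [Nat.factorial_succ (k + 1), div_div]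
      congr 1
      push_cast
      ring
    rw [e1, e2, ← sub_div, abs_div, abs_of_pos hF, div_le_iff₀ hF, abs_of_nonneg (by linarith)]
    have h1 : Real.log N ^ (k + 1) ≤ (1 + Real.log N) ^ (k + 1) := pow_le_pow_left₀ hlog (by linarith) _
    have h2 : (1 + Real.log N) ^ (k + 1) * 1 ≤ (1 + Real.log N) ^ (k + 1) * ((k + 1).factorial : ℝ) :=
      mul_le_mul_of_nonneg_left hF1 (by positivity)
    linarith
  have htri := abs_sub_le (T g N) (∑ m ∈ Ioc 0 N, (1 / (m : ℝ)) *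
      ((Real.log N - Real.log m) ^ (k + 1) / ((k + 1).factorial : ℝ)))
      (Real.log N ^ (k + 1 + 1) / ((k + 1 + 1).factorial : ℝ))
  linarith

/-- the arithmetic function `1 / n` -/
noncomputable def uf : ArithmeticFunction ℝ := ⟨fun n => 1 / (n : ℝ), by simp⟩

theorem uf_apply (n : ℕ) : uf n = 1 / (n : ℝ) := rfl

theorem sum_uf_mul (g : ArithmeticFunction ℝ) (N : ℕ) :
    ∑ n ∈ Ioc 0 N, (uf * g) n = T (fun M => ∑ n ∈ Ioc 0 M, g n) N := by
  rw [ArithmeticFunction.sum_Ioc_mul_eq_sum_sum]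
  rfl

theorem uf_sq (n : ℕ) : (uf * uf) n = (n.divisors.card : ℝ) / n := by
  rw [ArithmeticFunction.mul_apply]
  have h : ∀ x ∈ n.divisorsAntidiagonal, uf x.1 * uf x.2 = 1 / (n : ℝ) := by
    intro x hx
    rw [Nat.mem_divisorsAntidiagonal] at hx
    rw [uf_apply, uf_apply, ← hx.1]
    push_cast
    rw [div_mul_div_comm, one_mul]
  rw [sum_congr rfl h, sum_const, ← Nat.map_div_right_divisors, card_map]
  simp [div_eq_mul_inv]

theorem uf_four (n : ℕ) : (uf * uf * (uf * uf)) n = (tau4 n : ℝ) / n := by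
  rw [ArithmeticFunction.mul_apply, Nat.sum_divisorsAntidiagonal (fun a b => (uf * uf) a * (uf * uf) b), tau4]
  push_cast
  rw [sum_div]
  refine sum_congr rfl fun d hd => ?_
  have hdn := Nat.dvd_of_mem_divisors hd
  have hn : n ≠ 0 := (Nat.mem_divisors.mp hd).2
  have hd0 : (d : ℝ) ≠ 0 := by
    have : d ≠ 0 := fun h0 => hn (by simpa [h0] using hdn)
    exact_mod_cast this
  rw [uf_sq, uf_sq, div_mul_div_comm]
  congr 1
  rw [← Nat.cast_mul, Nat.mul_div_cancel' hdn]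

theorem sum_tau4 (N : ℕ) : ∑ n ∈ Icc 1 N, (tau4 n : ℝ) / n = T (T (T (T fun _ => 1))) N := by
  have h0 : (Icc 1 N) = Ioc 0 N := by ext; simp [Nat.succ_le_iff]
  rw [h0]
  have h1 : ∀ M : ℕ, ∑ n ∈ Ioc 0 M, uf n = T (fun _ => 1) M := by
    intro M
    simp [T, uf_apply]
  calc ∑ n ∈ Ioc 0 N, (tau4 n : ℝ) / n = ∑ n ∈ Ioc 0 N, (uf * (uf * (uf * uf))) n := by
        refine sum_congr rfl fun n _ => ?_
        rw [← uf_four, mul_assoc]
    _ = T (fun M => ∑ n ∈ Ioc 0 M, (uf * (uf * uf)) n) N := sum_uf_mul _ _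
    _ = T (T (T (T fun _ => 1))) N := by
        congr 1
        funext M
        rw [sum_uf_mul]
        congr 1
        funext M'
        rw [sum_uf_mul]
        congr 1
        funext M''
        exact h1 M''

/-- **T4** -/
theorem t_T4 : S_T4 := by
  obtain ⟨C, hC, h⟩ := Q_step 2 _ (Q_step 1 _ (Q_step 0 _ Q_zero))
  refine ⟨C, hC, fun b hb => ?_⟩
  have := h b hb
  rw [sum_tau4]
  simpa [Nat.factorial] using this

end Pool.Agent.H52.TM
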